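import Pool.Agent.Helper13.Sof.Goals

/-!
# The elementary matrices of MP_1f9cc6_al satisfy the Heisenberg relations
-/

namespace Pool.Agent.Helper98.Sof

open Matrix Polynomial Pool.Agent.Helper13.Sof

section general

variable {G R : Type*} [Group G] [Ring R]

lemma inv_of (φ : G →* R) {u : G} {a : R} (hu : φ u = 1 + a) (ha : a * a = 0) :
    φ u⁻¹ = 1 - a := by
  have h1 : φ u * φ u⁻¹ = 1 := by rw [← map_mul, mul_inv_cancel, map_one]
  have h2 : (1 - a) * (1 + a) = 1 := by
    have : (1 - a) * (1 + a) = 1 - a * a := by noncomm_ring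
    rw [this, ha, sub_zero]
  calc φ u⁻¹ = ((1 - a) * (1 + a)) * φ u⁻¹ := by rw [h2, one_mul]
    _ = (1 - a) * (φ u * φ u⁻¹) := by rw [hu, mul_assoc]
    _ = 1 - a := by rw [h1, mul_one]

lemma heis_of (φ : G →* R) (hφ : Function.Injective φ) {u v : G} {a b : R}
    (hu : φ u = 1 + a) (hv : φ v = 1 + b) (ha : a * a = 0) (hb : b * b = 0)
    (hab : a * b * a = 0) (hba : b * a * b = 0) :
    Commute (u * v * u⁻¹ * v⁻¹) u := by
  have key : φ (u * v * u⁻¹ * v⁻¹) = 1 + (a * b - b * a) := by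
    rw [map_mul, map_mul, map_mul, inv_of φ hu ha, inv_of φ hv hb, hu, hv]
    have e : (1 + a) * (1 + b) * (1 - a) * (1 - b) =
        1 + (a * b - b * a) - a * a - b * b + a * a * b - a * (b * b) + b * a * b
          - a * b * a + a * b * a * b := by noncomm_ring
    rw [e, ha, hb, hab, hba]
    simp
  have k1 : (a * b - b * a) * a = 0 := by
    rw [sub_mul, hab, mul_assoc, ha, mul_zero, sub_zero]
  have k2 : a * (a * b - b * a) = 0 := by
    rw [mul_sub, ← mul_assoc, ← mul_assoc, ha, hab, zero_mul, sub_zero]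
  apply hφ
  rw [map_mul φ _ u, map_mul φ u _, key, hu]
  have e1 : (1 + (a * b - b * a)) * (1 + a) =
      1 + (a * b - b * a) + a + (a * b - b * a) * a := by noncomm_ring
  have e2 : (1 + a) * (1 + (a * b - b * a)) =
      1 + (a * b - b * a) + a + a * (a * b - b * a) := by noncomm_ring
  rw [e1, e2, k1, k2]

lemma pow_aux {a : R} (ha : a * a = 0) (n : ℕ) : (1 + a) ^ n = 1 + n • a := by
  induction n with
  | zero => simp
  | succ n ih =>
    rw [pow_succ, ih, mul_add, add_mul, add_mul, mul_one, mul_one, one_mul, smul_mul_assoc, ha,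
      smul_zero, add_zero, succ_nsmul, add_assoc]

lemma pow_of (φ : G →* R) (hφ : Function.Injective φ) {u : G} {a : R} {p : ℕ}
    (hu : φ u = 1 + a) (ha : a * a = 0) (hp : p • a = 0) : u ^ p = 1 := by
  apply hφ
  rw [map_pow, hu, pow_aux ha, hp, map_one, add_zero]

end general

/-- Transposed positions are the only obstruction. -/
lemma single_sandwich {n R : Type*} [Fintype n] [DecidableEq n] [Ring R] {i j k l : n}
    (c d : R) (h : ¬ (j = k ∧ l = i)) :
    Matrix.single i j c * Matrix.single k l d * Matrix.single i j c = 0 := by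
  by_cases h1 : j = k
  · subst h1
    have h2 : l ≠ i := fun e => h ⟨rfl, e⟩
    rw [Matrix.single_mul_single_same, Matrix.single_mul_single_of_ne (h := h2)]
  · rw [Matrix.single_mul_single_of_ne (h := h1), zero_mul]

lemma single_sq {n R : Type*} [Fintype n] [DecidableEq n] [Ring R] {i j : n}
    (c : R) (h : i ≠ j) : Matrix.single i j c * Matrix.single i j c = 0 :=
  Matrix.single_mul_single_of_ne (h := h.symm) ..

/-! ### The family in `GL₄` -/

lemma nsmul_single (p : ℕ) [Fact p.Prime] {n : Type*} [DecidableEq n] (i j : n) (c : Rng p) :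
    p • Matrix.single i j c = 0 := by
  rw [Matrix.smul_single]
  have : p • c = 0 := by
    rw [← Nat.cast_smul_eq_nsmul (ZMod p), ZMod.natCast_self, zero_smul]
  rw [this, Matrix.single_zero]

lemma eu_heis {p : ℕ} [Fact p.Prime] {i j k l : Fin 4} (h : i ≠ j) (h' : k ≠ l) (c d : Rng p)
    (hn : ¬ (j = k ∧ l = i)) :
    Commute (eu i j h c * eu k l h' d * (eu i j h c)⁻¹ * (eu k l h' d)⁻¹) (eu i j h c) :=
  heis_of (Units.coeHom _) Units.val_injective (a := Matrix.single i j c)
    (b := Matrix.single k l d) rfl rfl (single_sq c h) (single_sq d h')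
    (single_sandwich c d hn) (single_sandwich d c (fun e => hn ⟨e.2, e.1⟩))

lemma eu_pow {p : ℕ} [Fact p.Prime] {i j : Fin 4} (h : i ≠ j) (c : Rng p) :
    eu i j h c ^ p = 1 :=
  pow_of (Units.coeHom _) Units.val_injective (a := Matrix.single i j c) rfl (single_sq c h)
    (nsmul_single p i j c)

/-- Row index of the members of `kfam`. -/
def ri : Fin 6 → Fin 4 := ![0, 1, 2, 2, 2, 2]
/-- Column index of the members of `kfam`. -/
def ci : Fin 6 → Fin 4 := ![1, 2, 3, 0, 0, 0]

lemma ri_ne (i : Fin 6) : ri i ≠ ci i := by revert i; decide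

lemma no_tr (i j : Fin 6) : ¬ (ci i = ri j ∧ ci j = ri i) := by revert i j; decide

lemma kfam_eq (p : ℕ) (i : Fin 6) : ∃ c, kfam p i = eu (ri i) (ci i) (ri_ne i) c := by
  fin_cases i
  · exact ⟨_, rfl⟩
  · exact ⟨_, rfl⟩
  · exact ⟨_, rfl⟩
  · exact ⟨_, rfl⟩
  · exact ⟨_, rfl⟩
  · exact ⟨_, rfl⟩

theorem algHeisK : AlgHeisK := by
  intro p _
  constructor
  · intro i
    obtain ⟨c, hc⟩ := kfam_eq p i
    rw [hc]
    exact eu_pow _ _
  · intro i j
    obtain ⟨c, hc⟩ := kfam_eq p i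
    obtain ⟨d, hd⟩ := kfam_eq p j
    rw [hc, hd]
    exact eu_heis _ _ _ _ (no_tr i j)

/-! ### The family in `SL₃` -/

/-- The inclusion of `SL₃` in the ring of matrices. -/
noncomputable def ι (p : ℕ) : Lam p →* Matrix (Fin 3) (Fin 3) (ZMod p)[X] where
  toFun g := (g : Matrix (Fin 3) (Fin 3) (ZMod p)[X])
  map_one' := rfl
  map_mul' _ _ := rfl

lemma ι_inj (p : ℕ) : Function.Injective (ι p) := fun _ _ h => Subtype.ext h

lemma ι_el {p : ℕ} (i j : Fin 3) (h : i ≠ j) (c : (ZMod p)[X]) :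
    ι p (el i j h c) = 1 + Matrix.single i j c := rfl

lemma nsmul_single' (p : ℕ) [Fact p.Prime] {n : Type*} [DecidableEq n] (i j : n)
    (c : (ZMod p)[X]) : p • Matrix.single i j c = 0 := by
  rw [Matrix.smul_single]
  have : p • c = 0 := by
    rw [← Nat.cast_smul_eq_nsmul (ZMod p), ZMod.natCast_self, zero_smul]
  rw [this, Matrix.single_zero]

lemma el_heis {p : ℕ} {i j k l : Fin 3} (h : i ≠ j) (h' : k ≠ l)
    (c d : (ZMod p)[X]) (hn : ¬ (j = k ∧ l = i)) :
    Commute (el i j h c * el k l h' d * (el i j h c)⁻¹ * (el k l h' d)⁻¹) (el i j h c) :=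
  heis_of (ι p) (ι_inj p) (ι_el i j h c) (ι_el k l h' d) (single_sq c h) (single_sq d h')
    (single_sandwich c d hn) (single_sandwich d c (fun e => hn ⟨e.2, e.1⟩))

lemma el_pow {p : ℕ} [Fact p.Prime] {i j : Fin 3} (h : i ≠ j) (c : (ZMod p)[X]) :
    el i j h c ^ p = 1 :=
  pow_of (ι p) (ι_inj p) (ι_el i j h c) (single_sq c h) (nsmul_single' p i j c)

/-- Row index. -/
def ri3 : Fin 3 → Fin 3 := ![0, 1, 2]
/-- Column index. -/
def ci3 : Fin 3 → Fin 3 := ![1, 2, 0]

lemma ri3_ne (i : Fin 3) : ri3 i ≠ ci3 i := by revert i; decide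

lemma no_tr3 (i j : Fin 3) : ¬ (ci3 i = ri3 j ∧ ci3 j = ri3 i) := by revert i j; decide

/-- `dg` as a homomorphism. -/
noncomputable def dgHom (p : ℕ) : Lam p →* GG p where
  toFun := dg
  map_one' := by
    apply Units.ext
    show Matrix.diagonal _ = (1 : Matrix (Fin 4) (Fin 4) (Rng p))
    rw [← Matrix.diagonal_one]
    congr 1
    funext i
    split_ifs
    · exact map_one _
    · rfl
  map_mul' a b := by
    apply Units.ext
    show Matrix.diagonal _ = Matrix.diagonal _ * Matrix.diagonal _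
    rw [Matrix.diagonal_mul_diagonal]
    congr 1
    funext i
    split_ifs
    · exact map_mul _ _ _
    · exact (one_mul _).symm

lemma dgHom_apply (p : ℕ) (a : Lam p) : dgHom p a = dg a := rfl

lemma lfam_eq (p : ℕ) (i : Fin 3) :
    ∃ c, lfam p i = dgHom p (el (ri3 i) (ci3 i) (ri3_ne i) c) := by
  fin_cases i
  · exact ⟨_, rfl⟩
  · exact ⟨_, rfl⟩
  · exact ⟨_, rfl⟩

theorem algHeisL : AlgHeisL := by
  intro p _
  constructor
  · intro i
    obtain ⟨c, hc⟩ := lfam_eq p i
    rw [hc, ← map_pow, el_pow, map_one]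
  · intro i j
    obtain ⟨c, hc⟩ := lfam_eq p i
    obtain ⟨d, hd⟩ := lfam_eq p j
    rw [hc, hd, ← map_inv, ← map_inv, ← map_mul, ← map_mul, ← map_mul]
    exact (el_heis _ _ _ _ (no_tr3 i j)).map (dgHom p)

end Pool.Agent.Helper98.Sof
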